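/-
helper9. MAD: module TGT (targets).
-/
import Pool.Agent.H20.MAD.Def

set_option autoImplicit false

namespace Pool.MAD

open Finset
open scoped Classical

/-- the first letter of an occurrence -/
theorem tgt_one {V : Type} (y : V) (ys : List V) (w : List V) :
    cnt (y :: ys) w = ∑ i ∈ (range w.length).filter (fun i => w[i]? = some y),
      cnt ys (w.drop (i + 1)) := by
  rw [Finset.sum_filter]
  induction w with
  | nil => simp [cnt]
  | cons a xs ih =>
    rw [List.length_cons, Finset.sum_range_succ']
    simp only [cnt, List.getElem?_cons_succ, List.drop_succ_cons, List.getElem?_cons_zero,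
      Option.some.injEq, Nat.zero_add, List.drop_zero]
    rw [ih]

/-- the letter before the first letter of an occurrence -/
theorem tgt_two {V : Type} (x y : V) (ys : List V) (w : List V) :
    cnt (x :: y :: ys) w = ∑ i ∈ (range w.length).filter (fun i => w[i]? = some y),
      cnt [x] (w.take i) * cnt ys (w.drop (i + 1)) := by
  rw [Finset.sum_filter]
  induction w with
  | nil => simp [cnt]
  | cons a xs ih =>
    rw [List.length_cons, Finset.sum_range_succ']
    have h0 : (if (a :: xs)[0]? = some y then
        cnt [x] ((a :: xs).take 0) * cnt ys ((a :: xs).drop (0 + 1)) else 0) = 0 := by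
      split_ifs
      · simp [cnt]
      · rfl
    rw [h0, add_zero]
    have h1 : cnt (x :: y :: ys) (a :: xs) =
        cnt (x :: y :: ys) xs + (if a = x then cnt (y :: ys) xs else 0) := rfl
    rw [h1, ih, tgt_one y ys xs, Finset.sum_filter]
    by_cases hax : a = x
    · rw [if_pos hax, ← Finset.sum_add_distrib]
      refine Finset.sum_congr rfl fun i _ => ?_
      simp only [List.getElem?_cons_succ, List.drop_succ_cons, List.take_succ_cons, cnt, if_pos hax]
      split_ifs
      · ring
      · ring
    · rw [if_neg hax, add_zero]
      refine Finset.sum_congr rfl fun i _ => ?_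
      simp only [List.getElem?_cons_succ, List.drop_succ_cons, List.take_succ_cons, cnt,
        if_neg hax, add_zero]

theorem tgt_cn {V : Type} (N : V → Finset V) (B : Finset V) (y : V) :
    ∀ (T : ℕ) (u : V) (w : List V) (i : ℕ), w ∈ Wk N B T u → w[i]? = some y →
      Cn N u (w.take i) y := by
  intro T
  induction T with
  | zero =>
    intro u w i hw hi
    simp only [Wk, Finset.mem_singleton] at hw
    rw [hw] at hi
    simp at hi
  | succ T ih =>
    intro u w i hw hi
    simp only [Wk, Finset.mem_biUnion, Finset.mem_image] at hw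
    obtain ⟨a, ha, w', hw', rfl⟩ := hw
    cases i with
    | zero =>
      simp only [List.getElem?_cons_zero, Option.some.injEq] at hi
      rw [List.take_zero]
      rw [← hi]
      exact ha
    | succ i =>
      rw [List.getElem?_cons_succ] at hi
      rw [List.take_succ_cons]
      refine ⟨ha, ?_⟩
      by_cases haB : a ∈ B
      · rw [if_pos haB] at hw'
        exact ih a w' i hw' hi
      · rw [if_neg haB, Finset.mem_singleton] at hw'
        rw [hw'] at hi
        simp at hi

theorem t_tgt (hN : CNTStmt) : TGTStmt := by
  intro V _ N B T u y ys P hP hpos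
  obtain ⟨hc0, -⟩ := hN V
  set D := cv (Wk N B T u) P (y :: ys) with hD
  have e1 : ∀ x : V, ∑ s ∈ (Wk N B T u).sigma (fun w => (range w.length).filter
      (fun i => w[i]? = some y)), (P s.1 * cnt ys (s.1.drop (s.2 + 1)) / D) *
        cnt [x] (s.1.take s.2) = cv (Wk N B T u) P (x :: y :: ys) / D := by
    intro x
    rw [Finset.sum_sigma]
    unfold cv
    rw [Finset.sum_div]
    refine Finset.sum_congr rfl fun w _ => ?_
    rw [tgt_two x y ys w, Finset.mul_sum, Finset.sum_div]
    refine Finset.sum_congr rfl fun i _ => ?_
    ring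
  refine ⟨(_ : List V) × ℕ, (Wk N B T u).sigma (fun w => (range w.length).filter
      (fun i => w[i]? = some y)), fun s => P s.1 * cnt ys (s.1.drop (s.2 + 1)) / D,
      fun s => s.1.take s.2, ?_, ?_, ?_, ?_⟩
  · intro s _
    exact div_nonneg (mul_nonneg (hP.nn _) (hc0 _ _)) hpos.le
  · rw [Finset.sum_sigma]
    have e2 : ∀ w ∈ Wk N B T u, ∑ i ∈ (range w.length).filter (fun i => w[i]? = some y),
        P w * cnt ys (w.drop (i + 1)) / D = P w * cnt (y :: ys) w / D := by
      intro w _
      rw [tgt_one y ys w, Finset.mul_sum, Finset.sum_div]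
    rw [Finset.sum_congr rfl e2, ← Finset.sum_div]
    exact div_self hpos.ne'
  · intro s hs
    rw [Finset.mem_sigma, Finset.mem_filter] at hs
    exact tgt_cn N B y T u s.1 s.2 hs.1 hs.2.2
  · refine le_of_eq (Finset.sum_congr rfl fun x _ => ?_)
    rw [e1 x, div_pow]

end Pool.MAD
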