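/-
helper9. MAD: module MON (convexity and monotonicity in the horizon).
-/
import Pool.Agent.H20.MAD.Def

set_option autoImplicit false

namespace Pool.MAD

open Finset
open scoped Classical

theorem mon_En_smul {V : Type} [Fintype V] (n : ℕ) (A c : ℝ) (f : List V → ℝ) :
    En n A (fun y => c * f y) = c ^ 2 * En n A f := by
  unfold En
  rw [Finset.mul_sum]
  refine Finset.sum_congr rfl fun y _ => ?_
  ring

theorem mon_one (hH : HILStmt) (hM : MINStmt) {V : Type} [Fintype V] (n : ℕ) (A : ℝ)
    (W : Finset (List V)) (hA : 0 ≤ A) (hW : W.Nonempty) (C : List V → ℝ) (hC : Pln W C) :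
    En n A (fun y => cv W C y - cv W (mp n A W) y) ≤
      2 * En n A (cv W C) - 2 * En n A (cv W (mp n A W)) := by
  obtain ⟨hP, hmin⟩ := hM V n A W hA hW
  obtain ⟨-, -, -, -, -, hpar, -⟩ := hH V n A hA
  have hplan : Pln W (fun w => (1 / 2) * (C w + mp n A W w)) := by
    refine ⟨fun w => ?_, fun w hw => ?_, ?_⟩
    · have h1 := hC.nn w
      have h2 := hP.nn w
      positivity
    · simp only [hC.sup w hw, hP.sup w hw, add_zero, mul_zero]
    · rw [← Finset.mul_sum, Finset.sum_add_distrib, hC.tot, hP.tot]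
      norm_num
  have h1 := hmin _ hplan
  have h2 : cv W (fun w => (1 / 2) * (C w + mp n A W w)) =
      fun y => (1 / 2) * (cv W C y + cv W (mp n A W) y) := by
    funext y
    unfold cv
    rw [← Finset.sum_add_distrib, Finset.mul_sum]
    refine Finset.sum_congr rfl fun w _ => ?_
    ring
  rw [h2, mon_En_smul n A (1 / 2) (fun y => cv W C y + cv W (mp n A W) y)] at h1
  have h3 := hpar (cv W C) (cv W (mp n A W))
  nlinarith [h1, h3]

theorem mon_trunc (hN : CNTStmt) (hW : WLKStmt) {V : Type} [Fintype V] (N : V → Finset V)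
    (hne : ∀ x, (N x).Nonempty) (B : Finset V) (s T : ℕ) (hsT : s ≤ T) (u : V)
    (P : List V → ℝ) (hP : Pln (Wk N B T u) P) :
    ∃ P' : List V → ℝ, Pln (Wk N B s u) P' ∧ ∀ y, 0 ≤ cv (Wk N B s u) P' y ∧
      cv (Wk N B s u) P' y ≤ cv (Wk N B T u) P y := by
  obtain ⟨-, -, htake, -⟩ := hW V N hne
  obtain ⟨hc0, -, -, hct, -⟩ := hN V
  refine ⟨fun w' => ∑ w ∈ (Wk N B T u).filter (fun w => w.take s = w'), P w, ⟨?_, ?_, ?_⟩, ?_⟩
  · intro w'
    exact Finset.sum_nonneg fun w _ => hP.nn w
  · intro w' hw'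
    have he : (Wk N B T u).filter (fun w => w.take s = w') = ∅ := by
      rw [Finset.filter_eq_empty_iff]
      intro w hw h
      apply hw'
      rw [← h]
      exact htake B T s u hsT w hw
    simp only [he, Finset.sum_empty]
  · rw [Finset.sum_fiberwise_of_maps_to (fun w hw => htake B T s u hsT w hw)]
    exact hP.tot
  · intro y
    have hcv : cv (Wk N B s u) (fun w' => ∑ w ∈ (Wk N B T u).filter (fun w => w.take s = w'), P w) y =
        ∑ w ∈ Wk N B T u, P w * cnt y (w.take s) := by
      unfold cv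
      have h1 := Finset.sum_fiberwise_of_maps_to (s := Wk N B T u) (t := Wk N B s u)
        (g := fun w => w.take s) (fun w hw => htake B T s u hsT w hw)
        (fun w => P w * cnt y (w.take s))
      rw [← h1]
      refine Finset.sum_congr rfl fun w' _ => ?_
      rw [Finset.sum_mul]
      refine Finset.sum_congr rfl fun w hw => ?_
      rw [(Finset.mem_filter.1 hw).2]
    rw [hcv]
    constructor
    · exact Finset.sum_nonneg fun w _ => mul_nonneg (hP.nn w) (hc0 _ _)
    · unfold cv
      exact Finset.sum_le_sum fun w _ => mul_le_mul_of_nonneg_left (hct y w s) (hP.nn w)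

theorem t_mon (hN : CNTStmt) (hW : WLKStmt) (hH : HILStmt) (hM : MINStmt) : MONStmt := by
  intro V _ N n A B u hne hA hu
  have hmv : ∀ T, mv N n A B T u = cv (Wk N B T u) (mp n A (Wk N B T u)) := by
    intro T
    unfold mv
    rw [if_pos hu]
  have hWne : ∀ T, (Wk N B T u).Nonempty := fun T => (hW V N hne).1 B T u
  have h1 : ∀ (T : ℕ) (C : List V → ℝ), Pln (Wk N B T u) C →
      En n A (fun y => cv (Wk N B T u) C y - mv N n A B T u y) ≤
        2 * En n A (cv (Wk N B T u) C) - 2 * En n A (mv N n A B T u) := by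
    intro T C hC
    rw [hmv T]
    exact mon_one hH hM n A (Wk N B T u) hA (hWne T) C hC
  obtain ⟨-, hadd, -, -, -, -, -, -, hpt, -⟩ := hH V n A hA
  have h2 : ∀ s T : ℕ, s ≤ T → ∃ g : List V → ℝ, En n A (mv N n A B s u) ≤ En n A g ∧
      En n A g ≤ En n A (mv N n A B T u) ∧
      En n A (fun y => mv N n A B T u y - g y) ≤ En n A (mv N n A B T u) - En n A g ∧
      En n A (fun y => g y - mv N n A B s u y) ≤ 2 * En n A g - 2 * En n A (mv N n A B s u) := by
    intro s T hsT
    have hPT := (hM V n A (Wk N B T u) hA (hWne T)).1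
    obtain ⟨P', hP', hle⟩ := mon_trunc hN hW N hne B s T hsT u _ hPT
    have e1 := hpt (cv (Wk N B T u) (mp n A (Wk N B T u))) (cv (Wk N B s u) P')
      (fun y => (hle y).1) (fun y => (hle y).2)
    have e0 : 0 ≤ En n A (fun y => cv (Wk N B T u) (mp n A (Wk N B T u)) y -
        cv (Wk N B s u) P' y) := (hH V n A hA).1 _
    refine ⟨cv (Wk N B s u) P', ?_, ?_, ?_, h1 s P' hP'⟩
    · rw [hmv s]
      exact (hM V n A (Wk N B s u) hA (hWne s)).2 P' hP'
    · rw [hmv T]
      linarith
    · rw [hmv T]
      exact e1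
  refine ⟨h1, ?_, ?_⟩
  · intro s T hsT
    obtain ⟨g, ha, hb, -⟩ := h2 s T hsT
    exact ha.trans hb
  · intro s T hsT
    obtain ⟨g, ha, hb, hc, hd⟩ := h2 s T hsT
    have e1 : nm n A (fun y => mv N n A B T u y - mv N n A B s u y) ≤
        nm n A (fun y => mv N n A B T u y - g y) + nm n A (fun y => g y - mv N n A B s u y) := by
      have h := hadd (fun y => mv N n A B T u y - g y) (fun y => g y - mv N n A B s u y)
      have e : (fun y => (mv N n A B T u y - g y) + (g y - mv N n A B s u y)) =
          fun y => mv N n A B T u y - mv N n A B s u y := by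
        funext y
        ring
      rw [e] at h
      exact h
    have e2 : nm n A (fun y => mv N n A B T u y - g y) ≤
        Real.sqrt (En n A (mv N n A B T u) - En n A (mv N n A B s u)) := by
      unfold nm
      exact Real.sqrt_le_sqrt (by linarith)
    have e3 : nm n A (fun y => g y - mv N n A B s u y) ≤
        Real.sqrt 2 * Real.sqrt (En n A (mv N n A B T u) - En n A (mv N n A B s u)) := by
      rw [← Real.sqrt_mul (by norm_num : (0 : ℝ) ≤ 2)]
      unfold nm
      exact Real.sqrt_le_sqrt (by linarith)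
    linarith

end Pool.MAD
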